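import Pool.Agent.H2.Stair1

set_option autoImplicit false

namespace Pool.Agent.Results.MP_1da119_pr.Stairs

open MeasureTheory Filter Topology Pool.Agent.H2.Stair

theorem result :
    (∃ a, Adm a ∧ ∀ (Ω : Type) [MeasurableSpace Ω] (P : Measure Ω) (X : ℕ → Ω → ℕ × ℕ),
      IsWalk 1 a P X → P {ω | Tendsto (fun t => (X t ω).2) atTop atTop} = 1) ∧
    (∀ a, Adm a → ∀ (Ω : Type) [MeasurableSpace Ω] (P : Measure Ω) (X : ℕ → Ω → ℕ × ℕ),
      IsWalk (-1) a P X → P {ω | Tendsto (fun t => (X t ω).2) atTop atTop} = 0) := by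
  have on : ∀ {σ a} {Ω : Type} [MeasurableSpace Ω] {P : Measure Ω} {X : ℕ → Ω → ℕ × ℕ}, |σ| ≤ 1 →
      IsWalk σ a P X → ∀ᵐ ω ∂P, ∀ t, X t ω ∈ Set.range st := fun {σ a Ω _ P X} hσ h =>
    ae_all_iff.2 fun t => measure_mono_null (t := ⋃ y : ↥(Set.range st)ᶜ, {ω | X t ω = y})
      (fun ω c => Set.mem_iUnion.2 ⟨⟨_, c⟩, rfl⟩)
      (measure_iUnion_null fun y => (marg hσ h).1 t y y.2)
  constructor
  · obtain ⟨a, ha, h⟩ := exists_seq
    refine ⟨a, ha, fun Ω _ P X hX => ?_⟩
    obtain ⟨-, h1, h2⟩ := marg (by simp) hX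
    have := hX.1
    have f := h (fun t n => P {ω | X t ω = st n}) h1 fun t => funext (h2 t)
    refine (measure_congr (t := Set.univ) ?_).trans measure_univ
    filter_upwards [on (by simp) hX, ae_all_iff.2 fun n => ae_eventually_notMem (f n)] with ω a b
    refine eq_true (tendsto_atTop.2 fun m => ?_)
    filter_upwards [(eventually_all_finite (Set.finite_Iio (2 * m))).2 fun n _ => b n] with t ht
    obtain ⟨n, hn⟩ := a t
    have : ¬ n < 2 * m := fun c => ht n c hn.symm
    rw [← hn]; simp only [st]; omega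
  · intro a ha Ω _ P X hX
    obtain ⟨-, h1, h2⟩ := marg (by simp) hX
    have le : ∀ t n, P {ω | X t ω = st n} ≤ ENNReal.ofReal (wt (st n)) := fun t => by
      induction t with
      | zero => intro n; rw [h1]; split_ifs with c <;> simp [c, wt_st]
      | succ t ih => intro n; rw [h2]; exact ev_stat (ha.2.1 _) ih n
    have sm : Summable fun n => wt (st n) := by
      refine .of_nonneg_of_le (fun n => (wt_pos n).le) (fun n => ?_)
        (((summable_nat_add_iff 1).2 (Real.summable_one_div_nat_pow.2 one_lt_two)).mul_left 4)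
      have : (n : ℝ) + 1 ≤ 2 * ((n / 2 : ℕ) + 1) := by exact_mod_cast (by omega : n + 1 ≤ 2 * (n / 2 + 1))
      rw [wt_st, mul_one_div, div_le_div_iff₀ (by positivity) (by positivity)]
      push_cast
      nlinarith [pow_le_pow_left₀ (by positivity) this 2]
    refine le_zero_iff.1 (ge_of_tendsto' (ENNReal.tendsto_sum_nat_add _
      (by rw [← ENNReal.ofReal_tsum_of_nonneg (fun n => (wt_pos n).le) sm]; simp :
        ∑' n, ENNReal.ofReal (wt (st n)) ≠ ⊤)) fun m => ?_)
    refine (measure_mono_ae (t := ⋃ T, ⋂ t ≥ T, ⋃ k, {ω | X t ω = st (k + m)}) ?_).trans ?_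
    · filter_upwards [on (by simp) hX] with ω a b
      obtain ⟨T, hT⟩ := eventually_atTop.1 (tendsto_atTop.1 b (m + 1))
      refine Set.mem_iUnion.2 ⟨T, Set.mem_iInter₂.2 fun t ht => ?_⟩
      obtain ⟨n, hn⟩ := a t
      have := hT t ht
      rw [← hn] at this
      simp only [st] at this
      exact Set.mem_iUnion.2 ⟨n - m, by rw [Nat.sub_add_cancel (by omega)]; exact hn.symm⟩
    · rw [Monotone.measure_iUnion fun T T' h => Set.biInter_subset_biInter_left fun t ht => h.trans ht]
      exact iSup_le fun T => (measure_mono (Set.biInter_subset_of_mem le_rfl)).trans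
        ((measure_iUnion_le _).trans (ENNReal.tsum_le_tsum fun k => le T _))

end Pool.Agent.Results.MP_1da119_pr.Stairs
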